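import Pool.Agent.Helper28.EP.ADefs

/-!
# MP_36e183_co, part A, block A7: the homomorphism `Θ`
-/

set_option autoImplicit false
set_option linter.unusedVariables false
set_option linter.unusedSectionVars false

namespace Pool.Agent.EP

open MvPolynomial

variable {K : Type*} [Field K]

namespace A7

theorem e_succ (n : ℕ) : e K ((n : ℤ) + 1) = X n := rfl

theorem e_pos (d : ℕ) (hd : 1 ≤ d) : e K (d : ℤ) = X (d - 1) := by
  obtain ⟨n, rfl⟩ : ∃ n, d = n + 1 := ⟨d - 1, by omega⟩
  rw [Nat.add_sub_cancel]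
  exact_mod_cast e_succ n

theorem h_zero : h K 0 = 1 := by rw [h]

theorem h_succ (n : ℕ) : h K (n + 1) =
    ∑ i ∈ Finset.range (n + 1), (-1) ^ i * e K ((i : ℤ) + 1) * h K (n - i) := by
  rw [h, Finset.sum_range]

theorem hook_zero (j : ℕ) : hook K j 0 = h K (j + 1) := by rw [hook]

theorem hook_succ (j k : ℕ) : hook K j (k + 1) =
    e K ((k : ℤ) + 1) * h K (j + 1) - hook K (j + 1) k := by rw [hook]

section

variable {R : Type*} [Ring R] [Algebra K R] (f : List ℕ → R)

/-- `E_d = f(1^d)`. -/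
def E (d : ℕ) : R := f (List.replicate d 1)

/-- `Z_1 = E_1`, `Z_j = f(2 1^{j-2} 0)`; here `Z f j` is `Z_{j+1}`. -/
def Z : ℕ → R
  | 0 => f [1]
  | j + 1 => f (2 :: (List.replicate j 1 ++ [0]))

/-- `X_0 = E_d`, `X_j = f(1^{d-1-j} 2 1^{j-1} 0)`; here `XX f d j` with `d` replaced by `d + 1`. -/
def XX (d : ℕ) : ℕ → R
  | 0 => f (List.replicate (d + 1) 1)
  | j + 1 => f (List.replicate (d - (j + 1)) 1 ++ 2 :: (List.replicate j 1 ++ [0]))

theorem XX_top (d : ℕ) : XX f d d = Z f d := by
  cases d with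
  | zero => rfl
  | succ d =>
    show f (List.replicate (d + 1 - (d + 1)) 1 ++ 2 :: (List.replicate d 1 ++ [0])) = _
    rw [Nat.sub_self]
    rfl

theorem cut_E {θ : K} (hf : Cut θ f) (d j : ℕ) (hj : j < d) :
    E f (d - j) * Z f j = XX f d j - θ • XX f d (j + 1) := by
  obtain ⟨n, hn⟩ : ∃ n, d - j = n + 1 := ⟨d - j - 1, by omega⟩
  have h1 : E f (d - j) = f (List.replicate n 1 ++ [1]) := by
    rw [E, hn, List.replicate_succ']
  cases j with
  | zero =>
    have hd : d = n + 1 := by omega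
    have h2 := hf (List.replicate n 1) [] 1 0
    rw [h1, show Z f 0 = f ((0 + 1) :: []) from rfl, h2]
    subst hd
    have h3 : XX f (n + 1) 0 = f (List.replicate n 1 ++ 1 :: (0 + 1) :: []) := by
      show f (List.replicate (n + 1 + 1) 1) = _
      congr 1
      rw [List.replicate_succ', List.replicate_succ', List.append_assoc]
      rfl
    have h4 : XX f (n + 1) (0 + 1) = f (List.replicate n 1 ++ (1 + 1) :: 0 :: []) := by
      show f (List.replicate (n + 1 - (0 + 1)) 1 ++ 2 :: (List.replicate 0 1 ++ [0])) = _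
      rfl
    rw [h3, h4]
  | succ j =>
    have h2 := hf (List.replicate n 1) (List.replicate j 1 ++ [0]) 1 1
    have hZ : Z f (j + 1) = f ((1 + 1) :: (List.replicate j 1 ++ [0])) := rfl
    rw [h1, hZ, h2]
    have h3 : XX f d (j + 1) =
        f (List.replicate n 1 ++ 1 :: (1 + 1) :: (List.replicate j 1 ++ [0])) := by
      show f (List.replicate (d - (j + 1)) 1 ++ 2 :: (List.replicate j 1 ++ [0])) = _
      congr 1
      rw [hn, List.replicate_succ', List.append_assoc]
      rfl
    have h4 : XX f d (j + 1 + 1) =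
        f (List.replicate n 1 ++ (1 + 1) :: 1 :: (List.replicate j 1 ++ [0])) := by
      show f (List.replicate (d - (j + 1 + 1)) 1 ++ 2 :: (List.replicate (j + 1) 1 ++ [0])) = _
      congr 1
      have h5 : d - (j + 1 + 1) = n := by omega
      rw [h5]
      rfl
    rw [h3, h4]

/-- Telescoping. -/
theorem tele {θ : K} (hf : Cut θ f) (d j : ℕ) (hj : j ≤ d) :
    XX f d 0 = ∑ i ∈ Finset.range j, θ ^ i • (E f (d - i) * Z f i) + θ ^ j • XX f d j := by
  induction j with
  | zero => simp
  | succ j ih =>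
    rw [ih (by omega), Finset.sum_range_succ, cut_E f hf d j (by omega), smul_sub, pow_succ,
      mul_smul]
    abel

end

section

variable {R : Type*} [Ring R] [Algebra K R]

theorem sgn_smul (i : ℕ) (x : R) : ((-1 : K) ^ i) • x = (-1 : R) ^ i * x := by
  rw [Algebra.smul_def, map_pow, map_neg, map_one]

theorem exists_hom (f : List ℕ → R)
    (hcomm : ∀ i j : ℕ, 1 ≤ i → 1 ≤ j → f (List.replicate i 1) * f (List.replicate j 1) =
      f (List.replicate j 1) * f (List.replicate i 1)) :
    ∃ Θ : Lam K →ₐ[K] R, ∀ d : ℕ, 1 ≤ d → Θ (e K d) = f (List.replicate d 1) := by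
  let s : Set R := Set.range fun n : ℕ => f (List.replicate (n + 1) 1)
  have hs : ∀ a ∈ s, ∀ b ∈ s, a * b = b * a := by
    rintro _ ⟨i, rfl⟩ _ ⟨j, rfl⟩
    exact hcomm _ _ (by omega) (by omega)
  let _ : CommRing (Algebra.adjoin K s) :=
    { (Algebra.adjoin K s).toRing with
      mul_comm := fun a b =>
        (Algebra.isMulCommutative_adjoin K hs).is_comm.comm a b }
  let g : ℕ → Algebra.adjoin K s := fun n =>
    ⟨f (List.replicate (n + 1) 1), Algebra.subset_adjoin ⟨n, rfl⟩⟩
  let Ψ : Lam K →ₐ[K] Algebra.adjoin K s := aeval g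
  refine ⟨(Algebra.adjoin K s).val.comp Ψ, fun d hd => ?_⟩
  rw [e_pos d hd, AlgHom.comp_apply]
  have h1 : Ψ (X (d - 1)) = g (d - 1) := aeval_X _ _
  rw [h1]
  show f (List.replicate (d - 1 + 1) 1) = _
  rw [Nat.sub_add_cancel hd]

theorem Theta_h {θ : K} (f : List ℕ → R) (hf : Cut θ f) (Θ : Lam K →ₐ[K] R)
    (hΘ : ∀ d : ℕ, 1 ≤ d → Θ (e K d) = f (List.replicate d 1)) (n : ℕ) :
    Θ (h K (n + 1)) = (-θ) ^ n • Z f n := by
  induction n using Nat.strong_induction_on with
  | _ n ih =>
    have hE : ∀ i : ℕ, Θ (e K ((i : ℤ) + 1)) = E f (i + 1) := by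
      intro i
      have := hΘ (i + 1) (by omega)
      rw [Nat.cast_add, Nat.cast_one] at this
      exact this
    rw [h_succ, map_sum, Finset.sum_range_succ]
    have h1 : ∀ i ∈ Finset.range n, Θ ((-1) ^ i * e K ((i : ℤ) + 1) * h K (n - i)) =
        (-1 : R) ^ i * (E f (i + 1) * ((-θ) ^ (n - 1 - i) • Z f (n - 1 - i))) := by
      intro i hi
      rw [Finset.mem_range] at hi
      obtain ⟨m, hm⟩ : ∃ m, n - i = m + 1 := ⟨n - i - 1, by omega⟩
      rw [hm, map_mul, map_mul, map_pow, map_neg, map_one, hE, ih m (by omega), mul_assoc]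
      have h2 : n - 1 - i = m := by omega
      rw [h2]
    rw [Finset.sum_congr rfl h1, Nat.sub_self, h_zero, mul_one, map_mul, map_pow, map_neg,
      map_one, hE]
    have h3 := tele f hf n n le_rfl
    rw [XX_top] at h3
    have h4 : XX f n 0 = E f (n + 1) := rfl
    rw [h4] at h3
    -- reflect the sum
    rw [← Finset.sum_range_reflect (fun i => (-1 : R) ^ i *
      (E f (i + 1) * ((-θ) ^ (n - 1 - i) • Z f (n - 1 - i)))) n, h3]
    have h5 : ∀ i ∈ Finset.range n, (-1 : R) ^ (n - 1 - i) *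
        (E f (n - 1 - i + 1) * ((-θ) ^ (n - 1 - (n - 1 - i)) • Z f (n - 1 - (n - 1 - i)))) =
        -((-1 : R) ^ n * (θ ^ i • (E f (n - i) * Z f i))) := by
      intro i hi
      rw [Finset.mem_range] at hi
      have e1 : n - 1 - i + 1 = n - i := by omega
      have e2 : n - 1 - (n - 1 - i) = i := by omega
      have e3 : E f (n - i) * ((-θ) ^ i • Z f i) = (-1 : R) ^ i * (θ ^ i • (E f (n - i) * Z f i)) := by
        rw [neg_pow θ i, mul_smul, mul_smul_comm, mul_smul_comm, sgn_smul]
      rw [e1, e2, e3, ← mul_assoc, ← pow_add]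
      have e5 : (-1 : R) ^ n = -(-1 : R) ^ (n - 1 - i + i) := by
        have : n = n - 1 - i + i + 1 := by omega
        conv_lhs => rw [this, pow_succ]
        rw [mul_neg_one]
      rw [e5, neg_mul, neg_neg]
    rw [Finset.sum_congr rfl h5, Finset.sum_neg_distrib, ← Finset.mul_sum, mul_add]
    rw [neg_pow θ n, mul_smul]
    rw [sgn_smul]
    abel

theorem Theta_hook {θ : K} (f : List ℕ → R) (hf : Cut θ f) (Θ : Lam K →ₐ[K] R)
    (hΘ : ∀ d : ℕ, 1 ≤ d → Θ (e K d) = f (List.replicate d 1)) (d k : ℕ) (hk : k ≤ d) :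
    Θ (hook K (d - k) k) = (-θ) ^ (d - k) • XX f d (d - k) := by
  induction k with
  | zero =>
    rw [Nat.sub_zero, hook_zero, Theta_h f hf Θ hΘ, XX_top]
  | succ k ih =>
    have hE : Θ (e K ((k : ℤ) + 1)) = E f (k + 1) := by
      have := hΘ (k + 1) (by omega)
      rw [Nat.cast_add, Nat.cast_one] at this
      exact this
    have h1 : d - (k + 1) + 1 = d - k := by omega
    rw [hook_succ, map_sub, map_mul, hE, Theta_h f hf Θ hΘ, h1, ih (by omega)]
    have h2 := cut_E f hf d (d - (k + 1)) (by omega)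
    have h3 : d - (d - (k + 1)) = k + 1 := by omega
    rw [h3, h1] at h2
    rw [mul_smul_comm, h2, smul_sub, ← h1, pow_succ, mul_smul, neg_smul, smul_neg]
    abel

end

section dInf

variable {R : Type*} [Ring R] [Algebra K R]

theorem lin_wd_mul (g : List ℕ → R) (l : List ℕ) (x : FA K) :
    lin g (wd K l * x) = lin (fun w => g (l ++ w)) x := by
  have : (lin g : FA K →ₗ[K] R) ∘ₗ LinearMap.mulLeft K (wd K l) = lin (fun w => g (l ++ w)) := by
    refine lin_ext fun w => ?_
    rw [LinearMap.comp_apply, LinearMap.mulLeft_apply, wd_mul, lin_wd, lin_wd]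
  exact LinearMap.congr_fun this x

theorem lin_dInf_rep (n : ℕ) (f : List ℕ → R) :
    lin f (derL (fun k => wd K [k + 1]) (List.replicate n 1 ++ [0])) =
      ∑ p ∈ Finset.range n, f (List.replicate p 1 ++ 2 :: (List.replicate (n - 1 - p) 1 ++ [0])) +
        f (List.replicate (n + 1) 1) := by
  induction n generalizing f with
  | zero =>
    show lin f (wd K [0 + 1] * wd K [] + wd K [0] * 0) = _
    rw [mul_zero, add_zero, wd_mul, lin_wd]
    simp
  | succ n ih =>
    have h1 : derL (fun k => wd K [k + 1]) (List.replicate (n + 1) 1 ++ [0]) =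
        wd K [1 + 1] * wd K (List.replicate n 1 ++ [0]) +
          wd K [1] * derL (fun k => wd K [k + 1]) (List.replicate n 1 ++ [0]) := rfl
    rw [h1, map_add, wd_mul, lin_wd, lin_wd_mul, ih, Finset.sum_range_succ']
    have h2 : ∀ p ∈ Finset.range n,
        f ([1] ++ (List.replicate p 1 ++ 2 :: (List.replicate (n - 1 - p) 1 ++ [0]))) =
        f (List.replicate (p + 1) 1 ++ 2 :: (List.replicate (n + 1 - 1 - (p + 1)) 1 ++ [0])) := by
      intro p hp
      rw [Finset.mem_range] at hp
      have : n + 1 - 1 - (p + 1) = n - 1 - p := by omega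
      rw [this]
      rfl
    rw [Finset.sum_congr rfl h2]
    have h3 : f ([1 + 1] ++ (List.replicate n 1 ++ [0])) =
        f (List.replicate 0 1 ++ 2 :: (List.replicate (n + 1 - 1 - 0) 1 ++ [0])) := rfl
    have h4 : f ([1] ++ List.replicate (n + 1) 1) = f (List.replicate (n + 1 + 1) 1) := rfl
    rw [h3, h4]
    abel

end dInf

end A7

open A7

theorem theta_exists (q t : K) (hθ : q * t ≠ 0) {R : Type*} [Ring R] [Algebra K R]
    (f : List ℕ → R) (hf : Cut (q * t) f)
    (hcomm : ∀ i j : ℕ, 1 ≤ i → 1 ≤ j → f (List.replicate i 1) * f (List.replicate j 1) =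
      f (List.replicate j 1) * f (List.replicate i 1)) :
    ∃ Θ : Lam K →ₐ[K] R,
      (∀ d : ℕ, 1 ≤ d → Θ (e K d) = f (List.replicate d 1)) ∧
      (∀ d : ℕ, 1 ≤ d → Θ (qSym q t d) =
        lin f (dInf K (wd K (List.replicate (d - 1) 1 ++ [0])))) ∧
      Θ (h K 1) = f [1] ∧
      (∀ d : ℕ, 2 ≤ d → Θ (h K d) =
        (-(q * t)) ^ (d - 1) • f (2 :: (List.replicate (d - 2) 1 ++ [0]))) := by
  obtain ⟨Θ, hΘ⟩ := exists_hom (K := K) f hcomm
  refine ⟨Θ, hΘ, ?_, ?_, ?_⟩
  · intro d hd
    obtain ⟨n, rfl⟩ : ∃ n, d = n + 1 := ⟨d - 1, by omega⟩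
    rw [Nat.add_sub_cancel, dInf, der, lin_wd, lin_dInf_rep, qSym, map_sum]
    have h1 : ∀ j ∈ Finset.range (n + 1),
        Θ (C ((-(q * t))⁻¹ ^ j) * hook K j (n + 1 - 1 - j)) = XX f n j := by
      intro j hj
      rw [Finset.mem_range] at hj
      have h2 := Theta_hook f hf Θ hΘ n (n - j) (by omega)
      have h3 : n - (n - j) = j := by omega
      rw [h3] at h2
      rw [Nat.add_sub_cancel, ← MvPolynomial.smul_eq_C_mul, map_smul, h2, smul_smul, inv_pow,
        inv_mul_cancel₀ (pow_ne_zero _ (neg_ne_zero.2 hθ)), one_smul]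
    rw [Finset.sum_congr rfl h1, Finset.sum_range_succ', ← Finset.sum_range_reflect]
    congr 1
    refine Finset.sum_congr rfl fun j hj => ?_
    rw [Finset.mem_range] at hj
    show f (List.replicate (n - (n - 1 - j + 1)) 1 ++ 2 ::
      (List.replicate (n - 1 - j) 1 ++ [0])) = _
    have h4 : n - (n - 1 - j + 1) = j := by omega
    rw [h4]
  · have h1 := Theta_h f hf Θ hΘ 0
    rw [pow_zero, one_smul] at h1
    exact h1
  · intro d hd
    obtain ⟨n, rfl⟩ : ∃ n, d = n + 1 + 1 := ⟨d - 2, by omega⟩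
    exact Theta_h f hf Θ hΘ (n + 1)

theorem qSym_gen (q t : K) (hθ : q * t ≠ 0)
    (hd : ∀ d : ℕ, 1 ≤ d → ∑ i ∈ Finset.range d, ((q * t)⁻¹) ^ i ≠ 0)
    {R : Type*} [Ring R] [Algebra K R] (Θ Θ' : Lam K →ₐ[K] R)
    (hΘ : ∀ d : ℕ, 1 ≤ d → Θ (qSym q t d) = Θ' (qSym q t d)) : Θ = Θ' := by
  let S : Subalgebra K (Lam K) := AlgHom.equalizer Θ Θ'
  have hS : ∀ x, x ∈ S ↔ Θ x = Θ' x := fun x => Iff.rfl
  have key : ∀ n : ℕ, e K ((n : ℤ) + 1) ∈ S := by
    intro n
    induction n using Nat.strong_induction_on with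
    | _ n ih =>
      -- the `h_j`
      have hh : ∀ j ≤ n, h K j ∈ S := by
        intro j
        induction j using Nat.strong_induction_on with
        | _ j ihj =>
          intro hj
          cases j with
          | zero => rw [h_zero]; exact S.one_mem
          | succ j =>
            rw [h_succ]
            refine S.sum_mem fun i hi => ?_
            rw [Finset.mem_range] at hi
            refine S.mul_mem (S.mul_mem (S.pow_mem (S.neg_mem S.one_mem) _) (ih i (by omega))) ?_
            exact ihj (j - i) (by omega) (by omega)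
      -- the hooks
      have hhook : ∀ k ≤ n, hook K (n - k) k - (-1) ^ (n - k) * e K ((n : ℤ) + 1) ∈ S := by
        intro k hk
        induction k with
        | zero =>
          rw [Nat.sub_zero, hook_zero, h_succ, Finset.sum_range_succ, Nat.sub_self, h_zero, mul_one,
            add_sub_cancel_right]
          refine S.sum_mem fun i hi => ?_
          rw [Finset.mem_range] at hi
          exact S.mul_mem (S.mul_mem (S.pow_mem (S.neg_mem S.one_mem) _) (ih i (by omega)))
            (hh (n - i) (by omega))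
        | succ k ihk =>
          have h1 : n - (k + 1) + 1 = n - k := by omega
          rw [hook_succ, h1]
          have h2 : e K ((k : ℤ) + 1) * h K (n - k) ∈ S :=
            S.mul_mem (ih k (by omega)) (hh (n - k) (by omega))
          have h3 := S.sub_mem h2 (ihk (by omega))
          have h4 : e K ((k : ℤ) + 1) * h K (n - k) - hook K (n - k) k -
              (-1) ^ (n - (k + 1)) * e K ((n : ℤ) + 1) =
              e K ((k : ℤ) + 1) * h K (n - k) -
                (hook K (n - k) k - (-1) ^ (n - k) * e K ((n : ℤ) + 1)) := by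
            rw [← h1, pow_succ]
            ring
          rw [h4]
          exact h3
      have hq : qSym q t (n + 1) ∈ S := hΘ (n + 1) (by omega)
      have h1 : qSym q t (n + 1) - C (∑ i ∈ Finset.range (n + 1), ((q * t)⁻¹) ^ i) *
          e K ((n : ℤ) + 1) ∈ S := by
        have h2 : qSym q t (n + 1) - C (∑ i ∈ Finset.range (n + 1), ((q * t)⁻¹) ^ i) *
          e K ((n : ℤ) + 1) = ∑ j ∈ Finset.range (n + 1), C ((-(q * t))⁻¹ ^ j) *
            (hook K j (n - j) - (-1) ^ j * e K ((n : ℤ) + 1)) := by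
          rw [qSym, map_sum, Finset.sum_mul, ← Finset.sum_sub_distrib]
          refine Finset.sum_congr rfl fun j hj => ?_
          have h3 : C ((-(q * t))⁻¹ ^ j) * ((-1) ^ j * e K ((n : ℤ) + 1)) =
              C (((q * t)⁻¹) ^ j) * e K ((n : ℤ) + 1) := by
            have h5 : ((-1 : Lam K)) ^ j = C ((-1 : K) ^ j) := by
              rw [map_pow, map_neg, map_one]
            rw [h5, ← mul_assoc, ← map_mul]
            congr 2
            rw [← mul_pow]
            congr 1
            rw [inv_neg]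
            ring
          rw [Nat.add_sub_cancel, mul_sub, h3]
        rw [h2]
        refine S.sum_mem fun j hj => ?_
        rw [Finset.mem_range] at hj
        have h3 := hhook (n - j) (by omega)
        have h4 : n - (n - j) = j := by omega
        rw [h4] at h3
        rw [← MvPolynomial.smul_eq_C_mul]
        exact S.smul_mem h3 _
      have h2 := S.sub_mem hq h1
      rw [sub_sub_cancel, ← MvPolynomial.smul_eq_C_mul] at h2
      have h3 := S.smul_mem h2 (∑ i ∈ Finset.range (n + 1), ((q * t)⁻¹) ^ i)⁻¹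
      rwa [smul_smul, inv_mul_cancel₀ (hd (n + 1) (by omega)), one_smul] at h3
  refine MvPolynomial.algHom_ext fun n => ?_
  exact key n

end Pool.Agent.EP
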